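import Mathlib

/-!
Polynomials with real coefficients that are products of linear factors `X + c`, `c ≥ 0`:
their coefficient sequences are nonnegative and log-concave.
-/

namespace Pool.Agent.Q282.PF

open Polynomial

/-- The coefficient sequence is nonnegative and all its adjacent `2 × 2` minors are nonnegative. -/
def PF2 (p : ℝ[X]) : Prop :=
  (∀ k, 0 ≤ p.coeff k) ∧ ∀ i j, i ≤ j → p.coeff i * p.coeff (j + 1) ≤ p.coeff (i + 1) * p.coeff j

theorem pf2_C {a : ℝ} (ha : 0 ≤ a) : PF2 (C a) := by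
  refine ⟨fun k => ?_, fun i j _ => ?_⟩
  · rw [coeff_C]; split_ifs <;> simp [ha]
  · rw [coeff_C (n := j + 1), if_neg (Nat.succ_ne_zero j), mul_zero, coeff_C (n := i + 1),
      if_neg (Nat.succ_ne_zero i), zero_mul]

theorem PF2.mul_X_add_C {p : ℝ[X]} (hp : PF2 p) {c : ℝ} (hc : 0 ≤ c) : PF2 (p * (X + C c)) := by
  obtain ⟨h0, h2⟩ := hp
  have e0 : (p * (X + C c)).coeff 0 = c * p.coeff 0 := by
    rw [mul_add, coeff_add, coeff_mul_X_zero, coeff_mul_C]; ring
  have es : ∀ k, (p * (X + C c)).coeff (k + 1) = p.coeff k + c * p.coeff (k + 1) := by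
    intro k
    rw [mul_add, coeff_add, coeff_mul_X, coeff_mul_C]; ring
  refine ⟨fun k => ?_, fun i j hij => ?_⟩
  · rcases k with _ | k
    · rw [e0]; exact mul_nonneg hc (h0 0)
    · rw [es]; exact add_nonneg (h0 k) (mul_nonneg hc (h0 _))
  · rcases i with _ | i
    · rcases j with _ | j
      · rw [mul_comm]
      · rw [e0, es, es, es]
        have a0 := h0 0
        have a1 := h0 1
        have aj := h0 j
        have hh := h2 0 (j + 1) (Nat.zero_le _)
        nlinarith [mul_nonneg a0 aj, mul_nonneg hc (mul_nonneg a1 aj), mul_nonneg (mul_nonneg hc hc)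
          (sub_nonneg.2 hh)]
    · obtain ⟨j, rfl⟩ : ∃ j', j = j' + 1 := ⟨j - 1, by omega⟩
      rw [es, es, es, es]
      have hA := h2 i j (by omega)
      have hC := h2 (i + 1) (j + 1) (by omega)
      have hB : p.coeff i * p.coeff (j + 1 + 1) ≤ p.coeff (i + 1 + 1) * p.coeff j := by
        rcases Nat.eq_or_lt_of_le (show i ≤ j by omega) with h | h
        · subst h; rw [mul_comm]
        · have h1 := h2 i (j + 1) (by omega)
          have h3 := h2 (i + 1) j (by omega)
          exact h1.trans h3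
      nlinarith [mul_nonneg hc (sub_nonneg.2 hB), mul_nonneg (mul_nonneg hc hc) (sub_nonneg.2 hC)]

theorem PF2.mul_prod {p : ℝ[X]} (hp : PF2 p) (s : Multiset ℝ) (hs : ∀ c ∈ s, 0 ≤ c) :
    PF2 (p * (s.map (fun c => X + C c)).prod) := by
  induction s using Multiset.induction_on with
  | empty => simpa using hp
  | cons a s ih =>
    rw [Multiset.map_cons, Multiset.prod_cons, mul_comm (X + C a), ← mul_assoc]
    exact (ih fun c hc => hs c (Multiset.mem_cons_of_mem hc)).mul_X_add_C
      (hs a (Multiset.mem_cons_self a s))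

theorem PF2.logConcave {p : ℝ[X]} (hp : PF2 p) (l : ℕ) :
    p.coeff l * p.coeff (l + 2) ≤ p.coeff (l + 1) ^ 2 := by
  have := hp.2 l (l + 1) (Nat.le_succ l)
  rw [sq]; exact this

end Pool.Agent.Q282.PF
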