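import Mathlib

/-!
The combinatorial core for MP_f75e32: a cyclic-shift bijection inside a block.
-/

namespace Q282.Rot

/-- the end of the block containing `p` (blocks of `{0, ..., m-1}` are separated by `J`: there is a
boundary between `u` and `u + 1` when `u + 1 ∈ J`) -/
lemma exists_end (m : ℕ) (J : Set ℕ) (p : ℕ) (hp : p < m) :
    ∃ e, p ≤ e ∧ e < m ∧ (∀ r, p ≤ r → r < e → r + 1 ∉ J) ∧ (e + 1 = m ∨ e + 1 ∈ J) := by
  classical
  have hex : ∃ e, p ≤ e ∧ (e + 1 = m ∨ e + 1 ∈ J) := ⟨m - 1, by omega, Or.inl (by omega)⟩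
  have h := Nat.find_spec hex
  have hmin : ∀ r, r < Nat.find hex → ¬ (p ≤ r ∧ (r + 1 = m ∨ r + 1 ∈ J)) :=
    fun r hr => Nat.find_min hex hr
  refine ⟨Nat.find hex, h.1, ?_, ?_, h.2⟩
  · by_contra hcon
    have := hmin (m - 1) (by omega)
    exact this ⟨by omega, Or.inl (by omega)⟩
  · intro r hr1 hr2 hr3
    exact hmin r hr2 ⟨hr1, Or.inr hr3⟩

open Classical in
/-- the end of the block of `p` -/
noncomputable def eo (m : ℕ) (J : Set ℕ) (p : ℕ) : ℕ :=
  if hp : p < m then (exists_end m J p hp).choose else 0

lemma eo_spec (m : ℕ) (J : Set ℕ) (p : ℕ) (hp : p < m) :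
    p ≤ eo m J p ∧ eo m J p < m ∧ (∀ r, p ≤ r → r < eo m J p → r + 1 ∉ J) ∧
      (eo m J p + 1 = m ∨ eo m J p + 1 ∈ J) := by
  rw [eo, dif_pos hp]
  exact (exists_end m J p hp).choose_spec

/-- the shift inside the block, on indices `0, ..., m` -/
noncomputable def th (m : ℕ) (J : Set ℕ) (j u : ℕ) : ℕ :=
  if j = 0 then u else
  if u < j - 1 then u else
  if u = j - 1 then m else
  if u ≤ eo m J (j - 1) then u - 1 else
  if u < m then u else eo m J (j - 1)

def cond (m : ℕ) (J : Set ℕ) (j : ℕ) (z : ℕ → ℕ) : Prop :=
  (∀ u, u < m → z u < z m ∨ (z u = z m ∧ j ≤ u)) ∧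
  (∀ u, u + 1 < m → u + 1 ∉ J → z u < z (u + 1) ∨ (z u = z (u + 1) ∧ u + 1 ≠ j))

def S (m : ℕ) (J : Set ℕ) (z : ℕ → ℕ) : Prop :=
  ∀ u, u + 1 < m → u + 1 ∉ J → z u ≤ z (u + 1)

lemma S_mono (m : ℕ) (J : Set ℕ) (z : ℕ → ℕ) (hS : S m J z) (p : ℕ) : ∀ d, p + d < m →
    (∀ r, p ≤ r → r < p + d → r + 1 ∉ J) → z p ≤ z (p + d) := by
  intro d
  induction d with
  | zero => intro _ _; exact le_rfl
  | succ d ih =>
    intro h1 h2
    have h3 := ih (by omega) (fun r hr1 hr2 => h2 r hr1 (by omega))
    have h4 := hS (p + d) (by omega) (h2 (p + d) (by omega) (by omega))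
    exact h3.trans h4

/-- the condition for a positive shift -/
lemma cond_succ (m : ℕ) (J : Set ℕ) (p : ℕ) (hp : p < m) (z : ℕ → ℕ) :
    cond m J (p + 1) (z ∘ th m J (p + 1)) ↔
      S m J z ∧ z m < z p ∧ (∀ u, u < m → z u ≤ z (eo m J p)) ∧ (∀ u, u < p → z u < z (eo m J p)) ∧
        (1 ≤ p → p ∉ J → z (p - 1) ≤ z m) := by
  obtain ⟨h1, h2, h3, h4⟩ := eo_spec m J p hp
  set e := eo m J p with he
  have t1 : ∀ u, u < p → th m J (p + 1) u = u := by
    intro u hu
    rw [th, if_neg (by omega), if_pos (by omega)]
  have t2 : th m J (p + 1) p = m := by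
    rw [th, if_neg (by omega), if_neg (by omega), if_pos (by omega)]
  have t3 : ∀ u, p < u → u ≤ e → th m J (p + 1) u = u - 1 := by
    intro u hu hu'
    rw [th, if_neg (by omega), if_neg (by omega), if_neg (by omega), if_pos (by
      rw [Nat.add_sub_cancel]; exact hu')]
  have t4 : ∀ u, e < u → u < m → th m J (p + 1) u = u := by
    intro u hu hu'
    rw [th, if_neg (by omega), if_neg (by omega), if_neg (by omega), if_neg (by
      rw [Nat.add_sub_cancel]; omega), if_pos hu']
  have t5 : th m J (p + 1) m = e := by
    rw [th, if_neg (by omega), if_neg (by omega), if_neg (by omega), if_neg (by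
      rw [Nat.add_sub_cancel]; omega), if_neg (by omega), Nat.add_sub_cancel]
  constructor
  · rintro ⟨g1, g2⟩
    simp only [Function.comp_apply] at g1 g2
    -- consequences of g1
    have a1 : ∀ u, u < p → z u < z e := by
      intro u hu
      have := g1 u (by omega)
      rw [t1 u hu, t5] at this
      omega
    have a2 : z m < z e := by
      have := g1 p hp
      rw [t2, t5] at this
      omega
    have a3 : ∀ u, p < u → u ≤ e → z (u - 1) ≤ z e := by
      intro u hu hu'
      have := g1 u (by omega)
      rw [t3 u hu hu', t5] at this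
      omega
    have a4 : ∀ u, e < u → u < m → z u ≤ z e := by
      intro u hu hu'
      have := g1 u hu'
      rw [t4 u hu hu', t5] at this
      omega
    -- consequences of g2
    have b1 : ∀ u, u + 1 < p → u + 1 ∉ J → z u ≤ z (u + 1) := by
      intro u hu hJ
      have := g2 u (by omega) hJ
      rw [t1 u (by omega), t1 (u + 1) hu] at this
      omega
    have b2 : 1 ≤ p → p ∉ J → z (p - 1) ≤ z m := by
      intro hp1 hJ
      have := g2 (p - 1) (by omega) (by rw [Nat.sub_add_cancel hp1]; exact hJ)
      rw [Nat.sub_add_cancel hp1, t1 (p - 1) (by omega), t2] at this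
      omega
    have b3 : p < e → z m < z p := by
      intro hpe
      have := g2 p (by omega) (h3 p le_rfl hpe)
      rw [t2, t3 (p + 1) (by omega) (by omega), Nat.add_sub_cancel] at this
      omega
    have b4 : ∀ u, p < u → u < e → z (u - 1) ≤ z u := by
      intro u hu hu'
      have := g2 u (by omega) (h3 u (by omega) hu')
      rw [t3 u hu (by omega), t3 (u + 1) (by omega) (by omega), Nat.add_sub_cancel] at this
      omega
    have b5 : ∀ u, e < u → u + 1 < m → u + 1 ∉ J → z u ≤ z (u + 1) := by
      intro u hu hu' hJ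
      have := g2 u (by omega) hJ
      rw [t4 u hu (by omega), t4 (u + 1) (by omega) hu'] at this
      omega
    have b6 : z m < z p := by
      rcases h1.lt_or_eq with h | h
      · exact b3 h
      · rw [h]; exact a2
    refine ⟨?_, b6, ?_, a1, b2⟩
    · intro u hu hJ
      rcases Nat.lt_trichotomy (u + 1) p with h | h | h
      · exact b1 u h hJ
      · have h5 : z (p - 1) ≤ z m := b2 (by omega) (by rw [← h]; exact hJ)
        have h6 : p - 1 = u := by omega
        rw [h6] at h5
        rw [h]
        omega
      · -- p ≤ u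
        rcases Nat.lt_trichotomy u e with h' | h' | h'
        · rcases Nat.lt_or_ge (u + 1) e with h'' | h''
          · have := b4 (u + 1) (by omega) h''
            rwa [Nat.add_sub_cancel] at this
          · have h7 : u + 1 = e := by omega
            have := a3 (u + 1) (by omega) (by omega)
            rw [Nat.add_sub_cancel] at this
            rw [h7]; exact this
        · rw [h'] at hu hJ
          rcases h4 with h4 | h4
          · omega
          · exact absurd h4 hJ
        · exact b5 u h' hu hJ
    · intro u hu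
      rcases Nat.lt_or_ge u p with h | h
      · exact (a1 u h).le
      · rcases Nat.lt_trichotomy u e with h' | h' | h'
        · have := a3 (u + 1) (by omega) (by omega)
          rwa [Nat.add_sub_cancel] at this
        · rw [h']
        · exact a4 u h' hu
  · rintro ⟨hS, c1, c2, c3, c4⟩
    have c5 : z m < z e := lt_of_lt_of_le c1 (c2 p hp)
    refine ⟨?_, ?_⟩
    · intro u hu
      simp only [Function.comp_apply]
      rw [t5]
      rcases Nat.lt_trichotomy u p with h | h | h
      · rw [t1 u h]; exact Or.inl (c3 u h)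
      · rw [h, t2]; exact Or.inl c5
      · rcases Nat.lt_or_ge e u with h' | h'
        · rw [t4 u h' hu]
          have := c2 u hu
          omega
        · rw [t3 u h h']
          have := c2 (u - 1) (by omega)
          omega
    · intro u hu hJ
      simp only [Function.comp_apply]
      rcases Nat.lt_trichotomy (u + 1) p with h | h | h
      · rw [t1 u (by omega), t1 (u + 1) h]
        have := hS u hu hJ
        omega
      · have h5 := c4 (by omega) (by rw [← h]; exact hJ)
        rw [t1 u (by omega), h, t2]
        have h6 : p - 1 = u := by omega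
        rw [h6] at h5
        omega
      · rcases Nat.lt_trichotomy u p with h' | h' | h'
        · omega
        · subst h'
          rcases h1.lt_or_eq with h'' | h''
          · rw [t2, t3 (u + 1) (by omega) (by omega), Nat.add_sub_cancel]
            exact Or.inl c1
          · rw [← h''] at h4
            rcases h4 with h4 | h4
            · omega
            · exact absurd h4 hJ
        · rcases Nat.lt_trichotomy u e with h'' | h'' | h''
          · rw [t3 u h' (by omega), t3 (u + 1) (by omega) (by omega), Nat.add_sub_cancel]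
            have h8 : u - 1 + 1 = u := by omega
            have h7 := hS (u - 1) (by omega) (by
              rw [h8]
              have := h3 (u - 1) (by omega) (by omega)
              rwa [h8] at this)
            rw [h8] at h7
            omega
          · rw [h''] at hu hJ
            rcases h4 with h4 | h4
            · omega
            · exact absurd h4 hJ
          · rw [t4 u h'' (by omega), t4 (u + 1) (by omega) hu]
            have := hS u hu hJ
            omega

lemma cond_zero (m : ℕ) (J : Set ℕ) (z : ℕ → ℕ) :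
    cond m J 0 (z ∘ th m J 0) ↔ S m J z ∧ ∀ u, u < m → z u ≤ z m := by
  have t : ∀ u, th m J 0 u = u := fun u => by rw [th, if_pos rfl]
  constructor
  · rintro ⟨g1, g2⟩
    simp only [Function.comp_apply, t] at g1 g2
    refine ⟨fun u hu hJ => ?_, fun u hu => ?_⟩
    · have := g2 u hu hJ; omega
    · have := g1 u hu; omega
  · rintro ⟨g1, g2⟩
    refine ⟨fun u hu => ?_, fun u hu hJ => ?_⟩
    · simp only [Function.comp_apply, t]
      have := g2 u hu; omega
    · simp only [Function.comp_apply, t]
      have := g1 u hu hJ; omega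

lemma eo_succ (m : ℕ) (J : Set ℕ) (u : ℕ) (hu : u + 1 < m) (hJ : u + 1 ∉ J) :
    eo m J u = eo m J (u + 1) := by
  obtain ⟨g1, g2, g3, g4⟩ := eo_spec m J u (by omega)
  obtain ⟨h1, h2, h3, h4⟩ := eo_spec m J (u + 1) hu
  rcases Nat.lt_trichotomy (eo m J u) (eo m J (u + 1)) with h | h | h
  · exfalso
    rcases g4 with g4 | g4
    · omega
    · rcases Nat.lt_or_ge (eo m J u) (u + 1) with h' | h'
      · have : eo m J u = u := by omega
        rw [this] at g4
        exact hJ g4
      · exact h3 _ h' h g4
  · exact h
  · exfalso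
    rcases h4 with h4 | h4
    · omega
    · exact g3 _ (by omega) h h4

/-- the predicate singling out the shift -/
def Pd (m : ℕ) (J : Set ℕ) (z : ℕ → ℕ) (p : ℕ) : Prop :=
  p < m ∧ z m < z p ∧ ∀ u, u < m → z u ≤ z (eo m J p)

lemma cond_succ' (m : ℕ) (J : Set ℕ) (p : ℕ) (hp : p < m) (z : ℕ → ℕ) (hS : S m J z) :
    cond m J (p + 1) (z ∘ th m J (p + 1)) ↔ Pd m J z p ∧ ∀ q, q < p → ¬ Pd m J z q := by
  rw [cond_succ m J p hp z]
  obtain ⟨h1, h2, h3, h4⟩ := eo_spec m J p hp
  constructor
  · rintro ⟨-, c1, c2, c3, c4⟩
    refine ⟨⟨hp, c1, c2⟩, ?_⟩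
    rintro q hq ⟨hqm, d1, d2⟩
    by_cases hsame : ∀ r, q ≤ r → r < p → r + 1 ∉ J
    · -- same block
      have h5 : z q ≤ z (p - 1) := by
        have := S_mono m J z hS q (p - 1 - q) (by omega) (fun r hr1 hr2 => hsame r hr1 (by omega))
        have h6 : q + (p - 1 - q) = p - 1 := by omega
        rwa [h6] at this
      have h7 := c4 (by omega) (by
        have := hsame (p - 1) (by omega) (by omega)
        rwa [Nat.sub_add_cancel (by omega)] at this)
      omega
    · push Not at hsame
      obtain ⟨r, hr1, hr2, hr3⟩ := hsame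
      obtain ⟨g1, g2, g3, g4⟩ := eo_spec m J q hqm
      have h5 : eo m J q ≤ r := by
        by_contra hcon
        exact g3 r hr1 (by omega) hr3
      have h6 := c3 (eo m J q) (by omega)
      have h7 := d2 (eo m J p) h2
      omega
  · rintro ⟨⟨-, c1, c2⟩, hmin⟩
    refine ⟨hS, c1, c2, ?_, ?_⟩
    · intro u hu
      by_contra hcon
      rw [not_lt] at hcon
      apply hmin u hu
      obtain ⟨g1, g2, g3, g4⟩ := eo_spec m J u (by omega)
      have h5 : z u ≤ z (eo m J u) := by
        have := S_mono m J z hS u (eo m J u - u) (by omega) (fun r hr1 hr2 => g3 r hr1 (by omega))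
        have h6 : u + (eo m J u - u) = eo m J u := by omega
        rwa [h6] at this
      refine ⟨by omega, ?_, ?_⟩
      · have := c2 p hp
        omega
      · intro v hv
        have := c2 v hv
        omega
    · intro hp1 hJ
      by_contra hcon
      rw [not_le] at hcon
      apply hmin (p - 1) (by omega)
      obtain ⟨g1, g2, g3, g4⟩ := eo_spec m J (p - 1) (by omega)
      have h5 : eo m J (p - 1) = eo m J p := by
        rcases Nat.lt_trichotomy (eo m J (p - 1)) (eo m J p) with h | h | h
        · exfalso
          rcases g4 with g4 | g4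
          · omega
          · rcases Nat.lt_or_ge (eo m J (p - 1)) p with h' | h'
            · have : eo m J (p - 1) = p - 1 := by omega
              rw [this, Nat.sub_add_cancel hp1] at g4
              exact hJ g4
            · exact h3 _ h' h g4
        · exact h
        · exfalso
          rcases h4 with h4 | h4
          · omega
          · exact g3 _ (by omega) h h4
      refine ⟨by omega, hcon, ?_⟩
      rw [h5]
      exact c2

/-- exactly one shift works when `z` is sorted on blocks, none otherwise -/
theorem core (m : ℕ) (J : Set ℕ) (z : ℕ → ℕ) :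
    (S m J z → ∃! j, j ≤ m ∧ cond m J j (z ∘ th m J j)) ∧
    (¬ S m J z → ∀ j, j ≤ m → ¬ cond m J j (z ∘ th m J j)) := by
  classical
  constructor
  · intro hS
    by_cases hmax : ∀ u, u < m → z u ≤ z m
    · refine ⟨0, ⟨Nat.zero_le _, (cond_zero m J z).mpr ⟨hS, hmax⟩⟩, ?_⟩
      rintro j ⟨hj, hc⟩
      by_contra hne
      obtain ⟨p, rfl⟩ : ∃ p, j = p + 1 := ⟨j - 1, by omega⟩
      rw [cond_succ' m J p (by omega) z hS] at hc
      have := hmax p (by omega)
      have := hc.1.2.1
      omega
    · push Not at hmax
      obtain ⟨u, hu, hu'⟩ := hmax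
      -- a position with maximal value
      have hex : ∃ v, v < m ∧ ∀ w, w < m → z w ≤ z v := by
        obtain ⟨v, hv, hv'⟩ := Finset.exists_max_image (Finset.range m) z ⟨u, Finset.mem_range.mpr hu⟩
        exact ⟨v, Finset.mem_range.mp hv, fun w hw => hv' w (Finset.mem_range.mpr hw)⟩
      obtain ⟨v, hv, hvmax⟩ := hex
      have hP : ∃ p, Pd m J z p := by
        refine ⟨v, hv, lt_of_lt_of_le hu' (hvmax u hu), ?_⟩
        intro w hw
        obtain ⟨g1, g2, g3, g4⟩ := eo_spec m J v hv
        have h5 : z v ≤ z (eo m J v) := by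
          have := S_mono m J z hS v (eo m J v - v) (by omega) (fun r hr1 hr2 => g3 r hr1 (by omega))
          have h6 : v + (eo m J v - v) = eo m J v := by omega
          rwa [h6] at this
        exact (hvmax w hw).trans h5
      have hf := Nat.find_spec hP
      refine ⟨Nat.find hP + 1, ⟨?_, ?_⟩, ?_⟩
      · have := hf.1
        omega
      · rw [cond_succ' m J _ hf.1 z hS]
        exact ⟨hf, fun q hq => Nat.find_min hP hq⟩
      · rintro j ⟨hj, hc⟩
        rcases Nat.eq_zero_or_pos j with rfl | hj0
        · rw [cond_zero] at hc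
          have := hc.2 u hu
          omega
        · obtain ⟨p, rfl⟩ : ∃ p, j = p + 1 := ⟨j - 1, by omega⟩
          rw [cond_succ' m J p (by omega) z hS] at hc
          congr 1
          apply le_antisymm
          · by_contra hcon
            exact hc.2 _ (not_le.mp hcon) hf
          · exact Nat.find_min' hP hc.1
  · intro hS j hj hc
    rcases Nat.eq_zero_or_pos j with rfl | hj0
    · rw [cond_zero] at hc
      exact hS hc.1
    · obtain ⟨p, rfl⟩ : ∃ p, j = p + 1 := ⟨j - 1, by omega⟩
      rw [cond_succ m J p (by omega)] at hc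
      exact hS hc.1

lemma th_le (m : ℕ) (J : Set ℕ) (j u : ℕ) (_ : j ≤ m) (hu : u ≤ m) : th m J j u ≤ m := by
  rw [th]
  split_ifs
  · exact hu
  · exact hu
  · exact le_rfl
  · omega
  · omega
  · have := (eo_spec m J (j - 1) (by omega)).2.1
    omega

lemma th_inj (m : ℕ) (J : Set ℕ) (j : ℕ) (hj : j ≤ m) (u v : ℕ) (hu : u ≤ m) (hv : v ≤ m)
    (h : th m J j u = th m J j v) : u = v := by
  by_cases h0 : j = 0
  · subst h0
    simpa [th] using h
  · obtain ⟨h1, h2, -, -⟩ := eo_spec m J (j - 1) (by omega)
    simp only [th, if_neg h0] at h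
    split_ifs at h <;> omega

end Q282.Rot
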