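import Mathlib

/-!
Row insertion (RSK) and the descent set of the insertion tableau: `i` is a descent of `P(w)`
if and only if `i + 1` appears to the left of `i` in the word `w`.
-/

namespace Q282.Rsk

/-- Row insertion of `x` into a row: the new row and the bumped entry, if any. -/
def rowInsert (x : ℕ) : List ℕ → List ℕ × Option ℕ
  | [] => ([x], none)
  | y :: r => if x < y then (x :: r, some y) else (y :: (rowInsert x r).1, (rowInsert x r).2)

/-- Insertion of `x` into a tableau, given as the list of its rows from top to bottom. -/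
def ins : List (List ℕ) → ℕ → List (List ℕ)
  | [], x => [[x]]
  | r :: T, x =>
    match (rowInsert x r).2 with
    | none => (rowInsert x r).1 :: T
    | some y => (rowInsert x r).1 :: ins T y

/-- The RSK insertion tableau of a word. -/
def P (w : List ℕ) : List (List ℕ) := w.foldl ins []

/-- The index of the (first) row containing `z`. -/
def rowOf (T : List (List ℕ)) (z : ℕ) : ℕ := T.findIdx fun r => decide (z ∈ r)

lemma rowOf_cons (r : List ℕ) (T : List (List ℕ)) (z : ℕ) :
    rowOf (r :: T) z = if z ∈ r then 0 else rowOf T z + 1 := by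
  rw [rowOf, List.findIdx_cons]
  by_cases h : z ∈ r
  · simp [h]
  · simp [h, rowOf]

/-- row facts -/
lemma rowInsert_none (x : ℕ) (r : List ℕ) (h : (rowInsert x r).2 = none) :
    (rowInsert x r).1 = r ++ [x] ∧ ∀ z ∈ r, z ≤ x := by
  induction r with
  | nil => simp [rowInsert]
  | cons y r ih =>
    rw [rowInsert] at h ⊢
    by_cases hxy : x < y
    · rw [if_pos hxy] at h; simp at h
    · rw [if_neg hxy] at h ⊢
      obtain ⟨h1, h2⟩ := ih h
      refine ⟨by rw [h1]; rfl, ?_⟩
      intro z hz
      rcases List.mem_cons.mp hz with rfl | hz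
      · omega
      · exact h2 z hz

lemma rowInsert_some (x y : ℕ) (r : List ℕ) (hr : r.Pairwise (· < ·)) (h : (rowInsert x r).2 = some y) :
    x < y ∧ y ∈ r ∧ (∀ z ∈ r, x < z → y ≤ z) ∧
    (∀ z, z ∈ (rowInsert x r).1 ↔ z = x ∨ (z ∈ r ∧ z ≠ y)) := by
  induction r with
  | nil => simp [rowInsert] at h
  | cons a r ih =>
    rw [List.pairwise_cons] at hr
    rw [rowInsert] at h ⊢
    by_cases hxa : x < a
    · rw [if_pos hxa] at h ⊢
      simp only [Option.some.injEq] at h
      subst h
      refine ⟨hxa, by simp, ?_, ?_⟩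
      · intro z hz _
        rcases List.mem_cons.mp hz with rfl | hz
        · exact le_rfl
        · exact (hr.1 z hz).le
      · intro z
        simp only [List.mem_cons]
        constructor
        · rintro (h | h)
          · exact Or.inl h
          · exact Or.inr ⟨Or.inr h, (hr.1 z h).ne'⟩
        · rintro (h | ⟨h | h, h'⟩)
          · exact Or.inl h
          · exact absurd h h'
          · exact Or.inr h
    · rw [if_neg hxa] at h ⊢
      obtain ⟨h1, h2, h3, h4⟩ := ih hr.2 h
      refine ⟨h1, by simp [h2], ?_, ?_⟩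
      · intro z hz hxz
        rcases List.mem_cons.mp hz with rfl | hz
        · exact absurd hxz hxa
        · exact h3 z hz hxz
      · intro z
        simp only [List.mem_cons, h4 z]
        have : a < y := hr.1 y h2
        constructor
        · rintro (h | h | ⟨h, h'⟩)
          · exact Or.inr ⟨Or.inl h, by omega⟩
          · exact Or.inl h
          · exact Or.inr ⟨Or.inr h, h'⟩
        · rintro (h | ⟨h | h, h'⟩)
          · exact Or.inr (Or.inl h)
          · exact Or.inl h
          · exact Or.inr (Or.inr ⟨h, h'⟩)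

lemma rowInsert_sorted (x : ℕ) (r : List ℕ) (hr : r.Pairwise (· < ·)) (hx : x ∉ r) :
    (rowInsert x r).1.Pairwise (· < ·) := by
  induction r with
  | nil => simp [rowInsert]
  | cons a r ih =>
    rw [List.pairwise_cons] at hr
    rw [rowInsert]
    by_cases hxa : x < a
    · rw [if_pos hxa]
      simp only
      rw [List.pairwise_cons]
      exact ⟨fun z hz => hxa.trans (hr.1 z hz), hr.2⟩
    · rw [if_neg hxa]
      simp only
      rw [List.pairwise_cons]
      have hxa' : a < x := by
        have : x ≠ a := fun h => hx (by simp [h])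
        omega
      refine ⟨?_, ih hr.2 (fun h => hx (by simp [h]))⟩
      intro z hz
      rcases hb : (rowInsert x r).2 with _ | y
      · rw [(rowInsert_none x r hb).1] at hz
        rcases List.mem_append.mp hz with hz | hz
        · exact hr.1 z hz
        · rw [List.mem_singleton] at hz; omega
      · rw [(rowInsert_some x y r hr.2 hb).2.2.2 z] at hz
        rcases hz with hz | hz
        · omega
        · exact hr.1 z hz.1

/-- elements of a tableau -/
def Mem (T : List (List ℕ)) (z : ℕ) : Prop := ∃ r ∈ T, z ∈ r

/-- good tableau : rows increasing, no element in two rows -/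
def Good : List (List ℕ) → Prop
  | [] => True
  | r :: T => r.Pairwise (· < ·) ∧ (∀ z ∈ r, ¬ Mem T z) ∧ Good T

lemma mem_cons (r : List ℕ) (T : List (List ℕ)) (z : ℕ) : Mem (r :: T) z ↔ z ∈ r ∨ Mem T z := by
  simp [Mem]

lemma not_mem_nil (z : ℕ) : ¬ Mem [] z := by simp [Mem]

lemma mem_ins (T : List (List ℕ)) : ∀ x, Good T → (∀ z, Mem (ins T x) z ↔ z = x ∨ Mem T z) := by
  induction T with
  | nil => intro x _ z; simp [ins, Mem]
  | cons r T ih =>
    intro x hG z
    obtain ⟨h1, h2, h3⟩ := hG
    rw [ins]
    rcases hb : (rowInsert x r).2 with _ | y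
    · simp only
      rw [mem_cons, mem_cons, (rowInsert_none x r hb).1, List.mem_append, List.mem_singleton]
      tauto
    · simp only
      obtain ⟨g1, g2, g3, g4⟩ := rowInsert_some x y r h1 hb
      rw [mem_cons, mem_cons, g4 z, ih y h3 z]
      constructor
      · rintro ((h | h) | h | h)
        · exact Or.inl h
        · exact Or.inr (Or.inl h.1)
        · rw [h]; exact Or.inr (Or.inl g2)
        · exact Or.inr (Or.inr h)
      · rintro (h | h | h)
        · exact Or.inl (Or.inl h)
        · by_cases hz : z = y
          · exact Or.inr (Or.inl hz)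
          · exact Or.inl (Or.inr ⟨h, hz⟩)
        · exact Or.inr (Or.inr h)

lemma good_ins (T : List (List ℕ)) : ∀ x, Good T → ¬ Mem T x → Good (ins T x) := by
  induction T with
  | nil => intro x _ _; simp [ins, Good, Mem]
  | cons r T ih =>
    intro x hG hx
    obtain ⟨h1, h2, h3⟩ := hG
    rw [mem_cons, not_or] at hx
    rw [ins]
    rcases hb : (rowInsert x r).2 with _ | y
    · simp only
      refine ⟨rowInsert_sorted x r h1 hx.1, ?_, h3⟩
      intro z hz
      rw [(rowInsert_none x r hb).1, List.mem_append, List.mem_singleton] at hz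
      rcases hz with hz | rfl
      · exact h2 z hz
      · exact hx.2
    · simp only
      obtain ⟨g1, g2, g3, g4⟩ := rowInsert_some x y r h1 hb
      refine ⟨rowInsert_sorted x r h1 hx.1, ?_, ih y h3 (h2 y g2)⟩
      intro z hz
      rw [g4] at hz
      rw [mem_ins T y h3 z, not_or]
      rcases hz with rfl | hz
      · exact ⟨g1.ne, hx.2⟩
      · exact ⟨hz.2, h2 z hz.1⟩

lemma rowOf_ins_self (T : List (List ℕ)) (x : ℕ) (hG : Good T) : rowOf (ins T x) x = 0 := by
  cases T with
  | nil => simp [ins, rowOf_cons]
  | cons r T =>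
    rw [ins]
    rcases hb : (rowInsert x r).2 with _ | y
    · simp only
      rw [rowOf_cons, if_pos]
      rw [(rowInsert_none x r hb).1]; simp
    · simp only
      rw [rowOf_cons, if_pos]
      rw [(rowInsert_some x y r hG.1 hb).2.2.2]; simp

/-- claim C -/
lemma claimC (T : List (List ℕ)) (i : ℕ) (hG : Good T) (h1 : Mem T (i + 1)) :
    0 < rowOf (ins T i) (i + 1) := by
  cases T with
  | nil => exact absurd h1 (not_mem_nil _)
  | cons r T =>
    rw [ins]
    rcases hb : (rowInsert i r).2 with _ | y
    · obtain ⟨g1, g2⟩ := rowInsert_none i r hb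
      simp only
      rw [rowOf_cons, if_neg]
      · omega
      · rw [g1, List.mem_append, List.mem_singleton]
        rintro (h | h)
        · have := g2 _ h; omega
        · omega
    · obtain ⟨g1, g2, g3, g4⟩ := rowInsert_some i y r hG.1 hb
      simp only
      rw [rowOf_cons, if_neg]
      · omega
      · rw [g4]
        rintro (h | ⟨h, h'⟩)
        · omega
        · have := g3 _ h (by omega)
          omega

lemma claimA (i : ℕ) (T : List (List ℕ)) : ∀ x, Good T → x ≠ i → x ≠ i + 1 → ¬ Mem T x →
    Mem T i → Mem T (i + 1) →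
    rowOf T (i + 1) ≤ rowOf T i → rowOf (ins T x) (i + 1) ≤ rowOf (ins T x) i := by
  induction T with
  | nil => intro x _ _ _ _ h; exact absurd h (not_mem_nil _)
  | cons r T ih =>
    intro x hG hx1 hx2 hx hi hi' hle
    obtain ⟨h1, h2, h3⟩ := hG
    rw [mem_cons, not_or] at hx
    rw [mem_cons] at hi hi'
    rw [rowOf_cons, rowOf_cons] at hle
    rw [ins]
    rcases hb : (rowInsert x r).2 with _ | y
    · obtain ⟨g1, g2⟩ := rowInsert_none x r hb
      simp only
      rw [rowOf_cons, rowOf_cons, g1]
      simp only [List.mem_append, List.mem_singleton]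
      have e1 : (i + 1 ∈ r ∨ i + 1 = x) ↔ i + 1 ∈ r := ⟨fun h => h.resolve_right (Ne.symm hx2), Or.inl⟩
      have e2 : (i ∈ r ∨ i = x) ↔ i ∈ r := ⟨fun h => h.resolve_right (Ne.symm hx1), Or.inl⟩
      rw [if_congr e1 rfl rfl, if_congr e2 rfl rfl]
      exact hle
    · obtain ⟨g1, g2, g3, g4⟩ := rowInsert_some x y r h1 hb
      simp only
      rw [rowOf_cons, rowOf_cons]
      by_cases c1 : i + 1 ∈ r
      · by_cases c2 : y = i + 1
        · have c3 : i ∉ r := by
            intro h
            have := g3 i h (by omega)
            omega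
          rw [if_neg (show ¬ i ∈ (rowInsert x r).1 by rw [g4]; rintro (h | h); exacts [hx1 h.symm, c3 h.1])]
          rw [if_neg (show ¬ i + 1 ∈ (rowInsert x r).1 by
            rw [g4]; rintro (h | h); exacts [hx2 h.symm, h.2 c2.symm])]
          rw [c2, rowOf_ins_self T _ h3]
          omega
        · rw [if_pos (show i + 1 ∈ (rowInsert x r).1 by rw [g4]; exact Or.inr ⟨c1, fun h => c2 h.symm⟩)]
          omega
      · rw [if_neg c1] at hle
        have c3 : i ∉ r := by
          intro h
          rw [if_pos h] at hle; omega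
        rw [if_neg c3] at hle
        rw [if_neg (show ¬ i ∈ (rowInsert x r).1 by rw [g4]; rintro (h | h); exacts [hx1 h.symm, c3 h.1])]
        rw [if_neg (show ¬ i + 1 ∈ (rowInsert x r).1 by
            rw [g4]; rintro (h | h); exacts [hx2 h.symm, c1 h.1])]
        have := ih y h3 (fun h => c3 (h ▸ g2)) (fun h => c1 (h ▸ g2)) (h2 y g2)
          (hi.resolve_left c3) (hi'.resolve_left c1) (by omega)
        omega

lemma claimB (i : ℕ) (T : List (List ℕ)) : ∀ x, Good T → x ≠ i → x ≠ i + 1 → ¬ Mem T x →
    Mem T i → Mem T (i + 1) →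
    rowOf T i < rowOf T (i + 1) → rowOf (ins T x) i < rowOf (ins T x) (i + 1) := by
  induction T with
  | nil => intro x _ _ _ _ h; exact absurd h (not_mem_nil _)
  | cons r T ih =>
    intro x hG hx1 hx2 hx hi hi' hle
    obtain ⟨h1, h2, h3⟩ := hG
    rw [mem_cons, not_or] at hx
    rw [mem_cons] at hi hi'
    rw [rowOf_cons, rowOf_cons] at hle
    have c1 : i + 1 ∉ r := by
      intro h
      rw [if_pos h] at hle; omega
    rw [if_neg c1] at hle
    rw [ins]
    rcases hb : (rowInsert x r).2 with _ | y
    · obtain ⟨g1, g2⟩ := rowInsert_none x r hb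
      simp only
      rw [rowOf_cons, rowOf_cons, g1]
      simp only [List.mem_append, List.mem_singleton]
      have e1 : (i + 1 ∈ r ∨ i + 1 = x) ↔ i + 1 ∈ r := ⟨fun h => h.resolve_right (Ne.symm hx2), Or.inl⟩
      have e2 : (i ∈ r ∨ i = x) ↔ i ∈ r := ⟨fun h => h.resolve_right (Ne.symm hx1), Or.inl⟩
      rw [if_congr e1 rfl rfl, if_congr e2 rfl rfl, if_neg c1]
      exact hle
    · obtain ⟨g1, g2, g3, g4⟩ := rowInsert_some x y r h1 hb
      simp only
      rw [rowOf_cons, rowOf_cons]
      have c2 : y ≠ i + 1 := fun h => c1 (h ▸ g2)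
      rw [if_neg (show ¬ i + 1 ∈ (rowInsert x r).1 by
            rw [g4]; rintro (h | h); exacts [hx2 h.symm, c1 h.1])]
      by_cases c3 : i ∈ r
      · by_cases c4 : y = i
        · subst c4
          have := claimC T y h3 (hi'.resolve_left c1)
          rw [if_neg (show ¬ y ∈ (rowInsert x r).1 by
            rw [g4]; rintro (h | h); exacts [hx1 h.symm, h.2 rfl]), rowOf_ins_self T _ h3]
          omega
        · rw [if_pos (show i ∈ (rowInsert x r).1 by rw [g4]; exact Or.inr ⟨c3, fun h => c4 h.symm⟩)]
          omega
      · rw [if_neg c3] at hle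
        rw [if_neg (show ¬ i ∈ (rowInsert x r).1 by rw [g4]; rintro (h | h); exacts [hx1 h.symm, c3 h.1])]
        have := ih y h3 (fun h => c3 (h ▸ g2)) c2 (h2 y g2)
          (hi.resolve_left c3) (hi'.resolve_left c1) (by omega)
        omega

lemma P_append (w : List ℕ) (x : ℕ) : P (w ++ [x]) = ins (P w) x := by
  simp [P, List.foldl_append]

lemma P_good (w : List ℕ) (hw : w.Nodup) : Good (P w) ∧ ∀ z, Mem (P w) z ↔ z ∈ w := by
  induction w using List.reverseRecOn with
  | nil => exact ⟨trivial, fun z => by simp [P, Mem]⟩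
  | append_singleton w x ih =>
    rw [List.nodup_append] at hw
    obtain ⟨h1, h2⟩ := ih hw.1
    have hx : x ∉ w := fun h => hw.2.2 x h x (by simp) rfl
    rw [P_append]
    refine ⟨good_ins _ x h1 (by rw [h2]; exact hx), fun z => ?_⟩
    rw [mem_ins _ x h1 z, h2, List.mem_append, List.mem_singleton]
    tauto

/-- The descents of the insertion tableau. -/
theorem des_iff (w : List ℕ) (hw : w.Nodup) (i : ℕ) (hi : i ∈ w) (hi' : i + 1 ∈ w) :
    rowOf (P w) i < rowOf (P w) (i + 1) ↔ w.idxOf (i + 1) < w.idxOf i := by
  induction w using List.reverseRecOn with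
  | nil => simp at hi
  | append_singleton w x ih =>
    rw [List.nodup_append] at hw
    obtain ⟨h1, h2⟩ := P_good w hw.1
    have hx : x ∉ w := fun h => hw.2.2 x h x (by simp) rfl
    rw [P_append]
    rw [List.mem_append, List.mem_singleton] at hi hi'
    by_cases c1 : i ∈ w
    · by_cases c2 : i + 1 ∈ w
      · have e1 := ih hw.1 c1 c2
        rw [List.idxOf_append_of_mem c1, List.idxOf_append_of_mem c2, ← e1]
        have hx1 : x ≠ i := fun h => hx (h ▸ c1)
        have hx2 : x ≠ i + 1 := fun h => hx (h ▸ c2)
        constructor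
        · intro h
          by_contra hcon
          rw [not_lt] at hcon
          have := claimA i (P w) x h1 hx1 hx2 (by rw [h2]; exact hx) (by rw [h2]; exact c1)
            (by rw [h2]; exact c2) hcon
          omega
        · intro h
          exact claimB i (P w) x h1 hx1 hx2 (by rw [h2]; exact hx) (by rw [h2]; exact c1)
            (by rw [h2]; exact c2) h
      · have hx2 : i + 1 = x := hi'.resolve_left c2
        subst hx2
        rw [rowOf_ins_self _ _ h1, List.idxOf_append_of_mem c1, List.idxOf_append_of_notMem c2]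
        have := List.idxOf_lt_length_iff.mpr c1
        simp
        omega
    · have hx1 : i = x := hi.resolve_left c1
      subst hx1
      have c2 : i + 1 ∈ w := hi'.resolve_right (by omega)
      rw [rowOf_ins_self _ _ h1, List.idxOf_append_of_mem c2, List.idxOf_append_of_notMem c1]
      have := List.idxOf_lt_length_iff.mpr c2
      have h3 := claimC (P w) i h1 (by rw [h2]; exact c2)
      constructor
      · intro _; omega
      · intro _; exact h3

end Q282.Rsk
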