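import Mathlib
import Pool.Agent.Q282.PF

/-!
The polynomials `S_n(m,t)`, `n = 2 r + 1`: closed form of `S_n(m,1)` and factorisation into real
linear factors.
-/

namespace Pool.Agent.Q282.SnM

open Polynomial Finset

/-- `((m, a)) = m (m + 1) ⋯ (m + a - 1) / a!` as a polynomial in `m`. -/
noncomputable def mch (a : ℕ) : ℚ[X] :=
  C ((a.factorial : ℚ)⁻¹) * ∏ s ∈ range a, (X + C (s : ℚ))

/-- `S_n(m,t)` for `n = 2 r + 1`, a polynomial in `t` whose coefficients are polynomials in `m`. -/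
noncomputable def Sbiv (r : ℕ) : ℚ[X][X] :=
  ∑ i ∈ range r, (∑ s ∈ range (r - i), X ^ (i + 2 * s)) * C (mch i) * C (mch (2 * r + 1 - i))

noncomputable def A (r : ℕ) : ℚ[X] := ∏ j ∈ range r, (X + C ((j : ℚ) + 1))
noncomputable def B (r : ℕ) : ℚ[X] := ∏ j ∈ range r, (X + C ((j : ℚ) + 1 / 2))

theorem mch_zero : mch 0 = 1 := by simp [mch]

theorem mch_succ (a : ℕ) : C ((a : ℚ) + 1) * mch (a + 1) = (X + C (a : ℚ)) * mch a := by
  unfold mch
  rw [prod_range_succ, Nat.factorial_succ]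
  have h : C ((a : ℚ) + 1) * C ((((a + 1) * a.factorial : ℕ) : ℚ)⁻¹) = C ((a.factorial : ℚ)⁻¹) := by
    rw [← C_mul]
    congr 1
    have h1 : (a.factorial : ℚ) ≠ 0 := by exact_mod_cast a.factorial_ne_zero
    have h2 : (a : ℚ) + 1 ≠ 0 := by positivity
    push_cast
    field_simp
  rw [← mul_assoc, h]
  ring

theorem mch_one : mch 1 = X := by
  have := mch_succ 0
  rw [mch_zero] at this
  simpa using this

theorem tele (n k : ℕ) (hk : k < n) :
    X * ∑ i ∈ range (k + 1), C ((n : ℚ) - 2 * i) * mch i * mch (n - i) =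
      C (((k : ℚ) + 1) * ((n : ℚ) - k)) * mch (k + 1) * mch (n - k) := by
  induction k with
  | zero =>
    simp only [zero_add, sum_range_one, mch_zero, mch_one, Nat.sub_zero]
    simp
    ring
  | succ k ih =>
    rw [sum_range_succ, mul_add, ih (by omega)]
    obtain ⟨q, rfl⟩ : ∃ q, n = k + 1 + 1 + q := ⟨n - (k + 2), by omega⟩
    have e1 : k + 1 + 1 + q - k = (q + 1) + 1 := by omega
    have e2 : k + 1 + 1 + q - (k + 1) = q + 1 := by omega
    rw [e1, e2]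
    have h1 := mch_succ (k + 1)
    have h2 := mch_succ (q + 1)
    have c1 : C (((k : ℚ) + 1) * (((k + 1 + 1 + q : ℕ) : ℚ) - k)) * mch (k + 1) * mch (q + 1 + 1) =
        C ((k : ℚ) + 1) * mch (k + 1) * (C (((q + 1 : ℕ) : ℚ) + 1) * mch (q + 1 + 1)) := by
      have : ((k : ℚ) + 1) * (((k + 1 + 1 + q : ℕ) : ℚ) - k) =
          ((k : ℚ) + 1) * (((q + 1 : ℕ) : ℚ) + 1) := by push_cast; ring
      rw [this, C_mul]; ring
    have c2 : C ((((k + 1 : ℕ) : ℚ) + 1) * (((k + 1 + 1 + q : ℕ) : ℚ) - ((k + 1 : ℕ) : ℚ))) *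
        mch (k + 1 + 1) * mch (q + 1) =
        C ((q : ℚ) + 1) * mch (q + 1) * (C (((k + 1 : ℕ) : ℚ) + 1) * mch (k + 1 + 1)) := by
      have : (((k + 1 : ℕ) : ℚ) + 1) * (((k + 1 + 1 + q : ℕ) : ℚ) - ((k + 1 : ℕ) : ℚ)) =
          ((q : ℚ) + 1) * (((k + 1 : ℕ) : ℚ) + 1) := by push_cast; ring
      rw [this, C_mul]; ring
    rw [c1, c2, h1, h2]
    push_cast
    simp only [C_add, C_sub, C_mul, C_1]
    have e : (C (2 : ℚ) : ℚ[X]) = 2 := rfl
    rw [e]
    ring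

theorem vander (n : ℕ) :
    C ((n : ℚ) + 1) * ∑ p ∈ antidiagonal (n + 1), mch p.1 * mch p.2 =
      (2 * X + C (n : ℚ)) * ∑ p ∈ antidiagonal n, mch p.1 * mch p.2 := by
  have h : C ((n : ℚ) + 1) * ∑ p ∈ antidiagonal (n + 1), mch p.1 * mch p.2 =
      (∑ p ∈ antidiagonal (n + 1), C (p.1 : ℚ) * mch p.1 * mch p.2) +
      ∑ p ∈ antidiagonal (n + 1), mch p.1 * (C (p.2 : ℚ) * mch p.2) := by
    rw [mul_sum, ← sum_add_distrib]
    refine sum_congr rfl fun p hp => ?_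
    have := mem_antidiagonal.1 hp
    have hh : (n : ℚ) + 1 = (p.1 : ℚ) + p.2 := by exact_mod_cast this.symm
    rw [hh, C_add]
    ring
  rw [h, Nat.sum_antidiagonal_succ, Nat.sum_antidiagonal_succ', mul_sum]
  simp only [Nat.cast_zero, C_0, zero_mul, mul_zero, zero_add, add_zero, Nat.cast_add, Nat.cast_one]
  rw [← sum_add_distrib]
  refine sum_congr rfl fun p hp => ?_
  rw [mch_succ, mch_succ]
  have := mem_antidiagonal.1 hp
  have hh : (n : ℚ) = (p.1 : ℚ) + p.2 := by exact_mod_cast this.symm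
  rw [hh, C_add]
  ring

theorem vander_prod (n : ℕ) :
    ∑ p ∈ antidiagonal n, mch p.1 * mch p.2 =
      C ((n.factorial : ℚ)⁻¹) * ∏ s ∈ range n, (2 * X + C (s : ℚ)) := by
  induction n with
  | zero => simp [mch_zero]
  | succ n ih =>
    have h := vander n
    rw [ih] at h
    have hn : ((n : ℚ) + 1) ≠ 0 := by positivity
    have hf : (n.factorial : ℚ) ≠ 0 := by exact_mod_cast n.factorial_ne_zero
    have h2 : C (((n : ℚ) + 1)⁻¹) * (C ((n : ℚ) + 1) *
        ∑ p ∈ antidiagonal (n + 1), mch p.1 * mch p.2) =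
        ∑ p ∈ antidiagonal (n + 1), mch p.1 * mch p.2 := by
      rw [← mul_assoc, ← C_mul, inv_mul_cancel₀ hn, C_1, one_mul]
    rw [← h2, h, prod_range_succ, Nat.factorial_succ]
    have h3 : C ((((n + 1) * n.factorial : ℕ) : ℚ)⁻¹) =
        C (((n : ℚ) + 1)⁻¹) * C ((n.factorial : ℚ)⁻¹) := by
      rw [← C_mul]; congr 1; push_cast; rw [mul_inv]
    rw [h3]
    ring

theorem prod_pair (r : ℕ) :
    ∏ s ∈ range (2 * r + 1), (2 * X + C (s : ℚ)) = C (2 * 4 ^ r : ℚ) * X * A r * B r := by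
  induction r with
  | zero =>
    simp [A, B]
    rfl
  | succ r ih =>
    rw [show 2 * (r + 1) + 1 = 2 * r + 1 + 1 + 1 by ring, prod_range_succ, prod_range_succ, ih]
    unfold A B
    rw [prod_range_succ, prod_range_succ]
    have e1 : (2 * X + C (((2 * r + 1 : ℕ) : ℚ)) : ℚ[X]) = C 2 * (X + C ((r : ℚ) + 1 / 2)) := by
      rw [mul_add, ← C_mul]
      have : ((2 * r + 1 : ℕ) : ℚ) = 2 * ((r : ℚ) + 1 / 2) := by push_cast; ring
      rw [this]; rfl
    have e2 : (2 * X + C (((2 * r + 1 + 1 : ℕ) : ℚ)) : ℚ[X]) = C 2 * (X + C ((r : ℚ) + 1)) := by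
      rw [mul_add, ← C_mul]
      have : ((2 * r + 1 + 1 : ℕ) : ℚ) = 2 * ((r : ℚ) + 1) := by push_cast; ring
      rw [this]; rfl
    rw [e1, e2, show (2 * 4 ^ (r + 1) : ℚ) = 2 * 4 ^ r * (2 * 2) by ring, C_mul (a := 2 * 4 ^ r),
      C_mul (a := 2) (b := 2)]
    ring

theorem mch_A (r : ℕ) : mch (r + 1) = C (((r + 1).factorial : ℚ)⁻¹) * (X * A r) := by
  unfold mch A
  rw [prod_range_succ']
  simp only [Nat.cast_zero, C_0, add_zero, Nat.cast_add, Nat.cast_one]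
  ring

/-- the first half of the Vandermonde sum -/
theorem half (r : ℕ) :
    ∑ i ∈ range (r + 1), mch i * mch (2 * r + 1 - i) =
      C ((((2 * r + 1).factorial : ℚ)⁻¹) * 4 ^ r) * X * A r * B r := by
  have h1 := vander_prod (2 * r + 1)
  rw [Nat.sum_antidiagonal_eq_sum_range_succ (fun i j => mch i * mch j)] at h1
  rw [show (2 * r + 1).succ = (r + 1) + (r + 1) by omega, sum_range_add, prod_pair] at h1
  have h2 : ∑ x ∈ range (r + 1), mch (r + 1 + x) * mch (2 * r + 1 - (r + 1 + x)) =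
      ∑ i ∈ range (r + 1), mch i * mch (2 * r + 1 - i) := by
    rw [← sum_range_reflect (fun i => mch i * mch (2 * r + 1 - i))]
    refine sum_congr rfl fun x hx => ?_
    have hx' : x < r + 1 := mem_range.1 hx
    have e1 : 2 * r + 1 - (r + 1 + x) = r + 1 - 1 - x := by omega
    have e2 : 2 * r + 1 - (r + 1 - 1 - x) = r + 1 + x := by omega
    rw [e1, e2, mul_comm]
  rw [h2] at h1
  have h3 : (C (2 : ℚ) : ℚ[X]) * ∑ i ∈ range (r + 1), mch i * mch (2 * r + 1 - i) =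
      C 2 * (C ((((2 * r + 1).factorial : ℚ)⁻¹) * 4 ^ r) * X * A r * B r) := by
    have : (C (2 : ℚ) : ℚ[X]) = 2 := rfl
    rw [this, two_mul, h1, C_mul (a := 2), C_mul (a := ((2 * r + 1).factorial : ℚ)⁻¹), this]
    ring
  have h4 : (C (2 : ℚ) : ℚ[X]) ≠ 0 := by
    rw [Ne, C_eq_zero]; norm_num
  exact mul_left_cancel₀ h4 h3

theorem full (r : ℕ) :
    ∑ i ∈ range (r + 1), C (((2 * r + 1 : ℕ) : ℚ) - 2 * i) * mch i * mch (2 * r + 1 - i) =
      C (((r.factorial : ℚ) ^ 2)⁻¹) * X * A r * A r := by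
  have h := tele (2 * r + 1) r (by omega)
  rw [show 2 * r + 1 - r = r + 1 by omega, mch_A] at h
  have h1 : X * ∑ i ∈ range (r + 1), C (((2 * r + 1 : ℕ) : ℚ) - 2 * i) * mch i * mch (2 * r + 1 - i)
      = X * (C (((r.factorial : ℚ) ^ 2)⁻¹) * X * A r * A r) := by
    rw [h]
    have hf : (r.factorial : ℚ) ≠ 0 := by exact_mod_cast r.factorial_ne_zero
    have hr : (r : ℚ) + 1 ≠ 0 := by positivity
    have e : C (((r : ℚ) + 1) * (((2 * r + 1 : ℕ) : ℚ) - r)) * (C (((r + 1).factorial : ℚ)⁻¹) *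
        (X * A r)) * (C (((r + 1).factorial : ℚ)⁻¹) * (X * A r)) =
        (C (((r : ℚ) + 1) * (((2 * r + 1 : ℕ) : ℚ) - r)) * C (((r + 1).factorial : ℚ)⁻¹) *
          C (((r + 1).factorial : ℚ)⁻¹)) * (X * (X * A r * A r)) := by ring
    rw [e, ← C_mul, ← C_mul]
    have e2 : ((r : ℚ) + 1) * (((2 * r + 1 : ℕ) : ℚ) - r) * ((r + 1).factorial : ℚ)⁻¹ *
        ((r + 1).factorial : ℚ)⁻¹ = ((r.factorial : ℚ) ^ 2)⁻¹ := by
      rw [Nat.factorial_succ]
      push_cast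
      field_simp
      ring
    rw [e2]
    ring
  exact mul_left_cancel₀ X_ne_zero h1

/-- The closed form of `S_n(m,1)`, `n = 2 r + 1`. -/
theorem closed (r : ℕ) : (Sbiv r).eval 1 =
    C (1 / 2 : ℚ) * X * A r * (C (((r.factorial : ℚ) ^ 2)⁻¹) * A r -
      C ((((2 * r + 1).factorial : ℚ)⁻¹) * 4 ^ r) * B r) := by
  have h1 : (Sbiv r).eval 1 = ∑ i ∈ range (r + 1), C ((r : ℚ) - i) * mch i * mch (2 * r + 1 - i) := by
    rw [sum_range_succ, sub_self, C_0, zero_mul, zero_mul, add_zero]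
    unfold Sbiv
    rw [eval_finsetSum]
    refine sum_congr rfl fun i hi => ?_
    have hi' : i < r := mem_range.1 hi
    rw [eval_mul, eval_mul, eval_C, eval_C, eval_finsetSum]
    congr 2
    simp only [eval_pow, eval_X, one_pow, sum_const, card_range, nsmul_eq_mul, mul_one]
    rw [Nat.cast_sub hi'.le]
    simp
  have h2 : ∑ i ∈ range (r + 1), C ((r : ℚ) - i) * mch i * mch (2 * r + 1 - i) =
      C (1 / 2 : ℚ) * (∑ i ∈ range (r + 1), C (((2 * r + 1 : ℕ) : ℚ) - 2 * i) * mch i *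
        mch (2 * r + 1 - i)) - C (1 / 2 : ℚ) * ∑ i ∈ range (r + 1), mch i * mch (2 * r + 1 - i) := by
    rw [mul_sum, mul_sum, ← sum_sub_distrib]
    refine sum_congr rfl fun i _ => ?_
    have : (r : ℚ) - i = 1 / 2 * (((2 * r + 1 : ℕ) : ℚ) - 2 * i) - 1 / 2 := by push_cast; ring
    rw [this, C_sub, C_mul]
    ring
  rw [h1, h2, full, half]
  ring

end Pool.Agent.Q282.SnM
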