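import Mathlib
import Pool.Agent.Q282.PF
import Pool.Agent.Q282.SnM

/-!
The second factor of `S_n(m,1)` has only real negative zeros.
-/

namespace Pool.Agent.Q282.SnM

open Polynomial Finset

/-- `∏_{i < r} (x + i + 1/2)` at `x = -j` has sign `(-1)^j`. -/
theorem signB (r j : ℕ) (hj : j ≤ r) :
    0 < (-1 : ℝ) ^ j * ∏ i ∈ range r, (-(j : ℝ) + ((i : ℝ) + 1 / 2)) := by
  obtain ⟨k, rfl⟩ := Nat.exists_eq_add_of_le hj
  rw [prod_range_add, ← mul_assoc]
  refine mul_pos ?_ ?_
  · have : (-1 : ℝ) ^ j = ∏ _i ∈ range j, (-1 : ℝ) := by simp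
    rw [this, ← prod_mul_distrib]
    refine prod_pos fun i hi => ?_
    have : (i : ℝ) + 1 ≤ j := by exact_mod_cast mem_range.1 hi
    linarith
  · refine prod_pos fun i _ => ?_
    push_cast
    have : (0 : ℝ) ≤ i := Nat.cast_nonneg i
    linarith

theorem zeroA (r j : ℕ) (h1 : 1 ≤ j) (hj : j ≤ r) :
    ∏ i ∈ range r, (-(j : ℝ) + ((i : ℝ) + 1)) = 0 := by
  refine prod_eq_zero (mem_range.2 (show j - 1 < r by omega)) ?_
  rw [Nat.cast_sub h1]
  push_cast
  ring

theorem fact_lt (r : ℕ) (hr : 1 ≤ r) : 4 ^ r * r.factorial ^ 2 < (2 * r + 1).factorial := by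
  induction r, hr using Nat.le_induction with
  | base => decide
  | succ r hr ih =>
    rw [show 2 * (r + 1) + 1 = (2 * r + 1) + 1 + 1 by ring, Nat.factorial_succ (2 * r + 1 + 1),
      Nat.factorial_succ (2 * r + 1), Nat.factorial_succ r, pow_succ, mul_pow]
    have h : 4 * (r + 1) ^ 2 ≤ (2 * r + 1 + 1 + 1) * (2 * r + 1 + 1) := by nlinarith
    calc 4 ^ r * 4 * ((r + 1) ^ 2 * r.factorial ^ 2)
        = (4 * (r + 1) ^ 2) * (4 ^ r * r.factorial ^ 2) := by ring
      _ < (4 * (r + 1) ^ 2) * (2 * r + 1).factorial := by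
          exact Nat.mul_lt_mul_of_pos_left ih (by positivity)
      _ ≤ ((2 * r + 1 + 1 + 1) * (2 * r + 1 + 1)) * (2 * r + 1).factorial :=
          Nat.mul_le_mul_right _ h
      _ = _ := by ring

noncomputable def al (r : ℕ) : ℝ := ((r.factorial : ℝ) ^ 2)⁻¹
noncomputable def be (r : ℕ) : ℝ := ((2 * r + 1).factorial : ℝ)⁻¹ * 4 ^ r

theorem be_pos (r : ℕ) : 0 < be r := by unfold be; positivity
theorem al_pos (r : ℕ) : 0 < al r := by unfold al; positivity

theorem be_lt_al (r : ℕ) (hr : 1 ≤ r) : be r < al r := by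
  unfold al be
  have h1 : (0 : ℝ) < r.factorial := by exact_mod_cast r.factorial_pos
  have h2 : (0 : ℝ) < (2 * r + 1).factorial := by exact_mod_cast (2 * r + 1).factorial_pos
  have h3 : (4 : ℝ) ^ r * (r.factorial : ℝ) ^ 2 < (2 * r + 1).factorial := by
    exact_mod_cast fact_lt r hr
  rw [inv_mul_eq_div, inv_eq_one_div, div_lt_div_iff₀ h2 (by positivity)]
  linarith

noncomputable def AR (r : ℕ) : ℝ[X] := ∏ j ∈ range r, (X + C ((j : ℝ) + 1))
noncomputable def BR (r : ℕ) : ℝ[X] := ∏ j ∈ range r, (X + C ((j : ℝ) + 1 / 2))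
noncomputable def PR (r : ℕ) : ℝ[X] := C (al r) * AR r - C (be r) * BR r

theorem monic_AR (r : ℕ) : (AR r).Monic := monic_prod_of_monic _ _ fun _ _ => monic_X_add_C _
theorem monic_BR (r : ℕ) : (BR r).Monic := monic_prod_of_monic _ _ fun _ _ => monic_X_add_C _
theorem deg_AR (r : ℕ) : (AR r).natDegree = r := by
  unfold AR
  rw [natDegree_prod_of_monic _ _ fun _ _ => monic_X_add_C _]
  simp only [natDegree_X_add_C, sum_const, card_range, smul_eq_mul, mul_one]
theorem deg_BR (r : ℕ) : (BR r).natDegree = r := by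
  unfold BR
  rw [natDegree_prod_of_monic _ _ fun _ _ => monic_X_add_C _]
  simp only [natDegree_X_add_C, sum_const, card_range, smul_eq_mul, mul_one]

theorem coeff_PR (r : ℕ) : (PR r).coeff r = al r - be r := by
  unfold PR
  rw [coeff_sub, coeff_C_mul, coeff_C_mul]
  have h1 : (AR r).coeff r = 1 := by
    have := (monic_AR r).coeff_natDegree; rwa [deg_AR] at this
  have h2 : (BR r).coeff r = 1 := by
    have := (monic_BR r).coeff_natDegree; rwa [deg_BR] at this
  rw [h1, h2]; ring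

theorem degree_PR_le (r : ℕ) : (PR r).natDegree ≤ r := by
  unfold PR
  refine (natDegree_sub_le _ _).trans (max_le ?_ ?_)
  · exact (natDegree_C_mul_le _ _).trans (deg_AR r).le
  · exact (natDegree_C_mul_le _ _).trans (deg_BR r).le

theorem natDegree_PR (r : ℕ) (hr : 1 ≤ r) : (PR r).natDegree = r := by
  refine le_antisymm (degree_PR_le r) (le_natDegree_of_ne_zero ?_)
  rw [coeff_PR]
  have := be_lt_al r hr
  linarith

theorem eval_PR (r : ℕ) (x : ℝ) : (PR r).eval x =
    al r * ∏ i ∈ range r, (x + ((i : ℝ) + 1)) - be r * ∏ i ∈ range r, (x + ((i : ℝ) + 1 / 2)) := by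
  unfold PR AR BR
  rw [eval_sub, eval_mul, eval_mul, eval_C, eval_C, eval_prod, eval_prod]
  simp

theorem eval_PR_neg (r j : ℕ) (h1 : 1 ≤ j) (hj : j ≤ r) : (-1 : ℝ) ^ j * (PR r).eval (-(j : ℝ)) < 0 := by
  rw [eval_PR, zeroA r j h1 hj]
  have h := signB r j hj
  have hb := be_pos r
  nlinarith [mul_pos hb h]

theorem eval_PR_zero (r : ℕ) (hr : 1 ≤ r) : 0 < (PR r).eval 0 := by
  rw [eval_PR]
  have h1 : ∏ i ∈ range r, ((0 : ℝ) + ((i : ℝ) + 1 / 2)) ≤ ∏ i ∈ range r, ((0 : ℝ) + ((i : ℝ) + 1)) := by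
    refine prod_le_prod (fun i _ => by positivity) (fun i _ => by linarith)
  have h2 : 0 < ∏ i ∈ range r, ((0 : ℝ) + ((i : ℝ) + 1 / 2)) := prod_pos fun i _ => by positivity
  have h3 := be_lt_al r hr
  have h4 := be_pos r
  nlinarith

/-- roots between consecutive negative integers -/
theorem exists_root (r j : ℕ) (h1 : 1 ≤ j) (hj : j + 1 ≤ r) :
    ∃ c : ℝ, (j : ℝ) < c ∧ c < (j : ℝ) + 1 ∧ (PR r).eval (-c) = 0 := by
  have e1 := eval_PR_neg r j h1 (by omega)
  have e2 := eval_PR_neg r (j + 1) (by omega) hj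
  set f : ℝ → ℝ := fun c => (-1 : ℝ) ^ j * (PR r).eval (-c) with hf
  have hc : Continuous f := by
    have : Continuous fun c : ℝ => (PR r).eval (-c) := (PR r).continuous.comp continuous_neg
    exact continuous_const.mul this
  have f1 : f j < 0 := e1
  have f2 : 0 < f ((j : ℝ) + 1) := by
    have : f ((j : ℝ) + 1) = -((-1 : ℝ) ^ (j + 1) * (PR r).eval (-(((j + 1 : ℕ)) : ℝ))) := by
      simp only [hf]; push_cast; ring
    rw [this]; linarith
  have := intermediate_value_Ioo (show (j : ℝ) ≤ (j : ℝ) + 1 by linarith) hc.continuousOn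
  obtain ⟨c, ⟨hc1, hc2⟩, hc3⟩ := this ⟨f1, f2⟩
  refine ⟨c, hc1, hc2, ?_⟩
  have hne : (-1 : ℝ) ^ j ≠ 0 := pow_ne_zero _ (by norm_num)
  exact (mul_eq_zero.1 hc3).resolve_left hne

/-- factorisation of `PR r` -/
theorem factor_PR (r : ℕ) (hr : 1 ≤ r) : ∃ (a : ℝ) (s : Multiset ℝ), 0 < a ∧ (∀ c ∈ s, 0 ≤ c) ∧
    PR r = C a * (s.map (fun c => X + C c)).prod := by
  classical
  have hex : ∀ j : ℕ, ∃ c : ℝ, j + 2 ≤ r → ((j : ℝ) + 1 < c ∧ c < (j : ℝ) + 2 ∧ (PR r).eval (-c) = 0) := by
    intro j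
    by_cases h : j + 2 ≤ r
    · obtain ⟨c, h1, h2, h3⟩ := exists_root r (j + 1) (by omega) (by omega)
      refine ⟨c, fun _ => ⟨?_, ?_, h3⟩⟩
      · push_cast at h1; exact h1
      · push_cast at h2; linarith
    · exact ⟨0, fun h' => absurd h' h⟩
  choose c hc using hex
  have hP0 : PR r ≠ 0 := by
    intro h
    have := natDegree_PR r hr
    rw [h, natDegree_zero] at this
    omega
  set t : Multiset ℝ := (Multiset.range (r - 1)).map (fun j => -c j) with ht
  have hinj : ∀ i < r - 1, ∀ j < r - 1, i < j → c i < c j := by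
    intro i hi j hj hij
    have a1 := (hc i (by omega)).2.1
    have a2 := (hc j (by omega)).1
    have : (i : ℝ) + 1 ≤ j := by exact_mod_cast hij
    linarith
  have hnd : t.Nodup := by
    refine Multiset.Nodup.map_on ?_ (Multiset.nodup_range _)
    intro i hi j hj hij
    rw [Multiset.mem_range] at hi hj
    have hij' : c i = c j := by linarith
    rcases lt_trichotomy i j with h | h | h
    · have := hinj i hi j hj h; linarith
    · exact h
    · have := hinj j hj i hi h; linarith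
  have hle : t ≤ (PR r).roots := by
    rw [Multiset.le_iff_subset hnd]
    intro x hx
    obtain ⟨j, hj, rfl⟩ := Multiset.mem_map.1 hx
    rw [Multiset.mem_range] at hj
    rw [mem_roots hP0]
    exact (hc j (by omega)).2.2
  have hdvd : (t.map (fun a => X - C a)).prod ∣ PR r :=
    (Multiset.prod_X_sub_C_dvd_iff_le_roots hP0 t).2 hle
  obtain ⟨L, hL⟩ := hdvd
  have hQm : (t.map (fun a => X - C a)).prod.Monic := monic_multiset_prod_of_monic _ _ fun a _ => monic_X_sub_C a
  have hQd : (t.map (fun a => X - C a)).prod.natDegree = r - 1 := by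
    rw [natDegree_multiset_prod_X_sub_C_eq_card, ht, Multiset.card_map, Multiset.card_range]
  have hLd : L.natDegree = 1 := by
    have h1 : (PR r).natDegree = (r - 1) + L.natDegree := by
      rw [hL, hQm.natDegree_mul' (by rintro rfl; rw [mul_zero] at hL; exact hP0 hL), hQd]
    rw [natDegree_PR r hr] at h1
    omega
  have hLf : L = C (L.coeff 1) * X + C (L.coeff 0) := by
    exact eq_X_add_C_of_natDegree_le_one hLd.le
  have hlc : L.coeff 1 = al r - be r := by
    have h1 : (PR r).leadingCoeff = L.leadingCoeff := by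
      rw [hL, leadingCoeff_mul, hQm.leadingCoeff, one_mul]
    rw [leadingCoeff, natDegree_PR r hr, coeff_PR, leadingCoeff, hLd] at h1
    exact h1.symm
  have ha : 0 < L.coeff 1 := by rw [hlc]; have := be_lt_al r hr; linarith
  have hQ0 : 0 < (t.map (fun a => X - C a)).prod.eval 0 := by
    rw [eval_multiset_prod, Multiset.map_map]
    refine Multiset.prod_pos ?_
    intro x hx
    obtain ⟨a, ha', rfl⟩ := Multiset.mem_map.1 hx
    obtain ⟨j, hj, rfl⟩ := Multiset.mem_map.1 ha'
    rw [Multiset.mem_range] at hj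
    have := (hc j (by omega)).1
    simp only [Function.comp, eval_sub, eval_X, eval_C]
    have : (0 : ℝ) ≤ j := Nat.cast_nonneg j
    linarith
  have hb : 0 < L.coeff 0 := by
    have h1 := eval_PR_zero r hr
    rw [hL, eval_mul] at h1
    have h2 : L.eval 0 = L.coeff 0 := (coeff_zero_eq_eval_zero L).symm
    rw [h2] at h1
    exact (pos_iff_pos_of_mul_pos h1).1 hQ0
  refine ⟨L.coeff 1, (L.coeff 0 / L.coeff 1) ::ₘ t.map (fun a => -a), ha, ?_, ?_⟩
  · intro x hx
    rcases Multiset.mem_cons.1 hx with h | h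
    · rw [h]; positivity
    · obtain ⟨a, ha', rfl⟩ := Multiset.mem_map.1 h
      obtain ⟨j, hj, rfl⟩ := Multiset.mem_map.1 ha'
      rw [Multiset.mem_range] at hj
      have := (hc j (by omega)).1
      have h0 : (0 : ℝ) ≤ j := Nat.cast_nonneg j
      linarith
  · rw [Multiset.map_cons, Multiset.prod_cons, Multiset.map_map]
    have e1 : (Multiset.map ((fun c => X + C c) ∘ fun a => -a) t) = t.map (fun a => (X - C a : ℝ[X])) := by
      refine Multiset.map_congr rfl fun a _ => ?_
      simp [sub_eq_add_neg]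
    rw [e1]
    have e2 : (C (L.coeff 1) : ℝ[X]) * (X + C (L.coeff 0 / L.coeff 1)) = L := by
      conv_rhs => rw [hLf]
      rw [mul_add, ← C_mul, mul_div_cancel₀ _ ha.ne']
    rw [← mul_assoc, e2, mul_comm, ← hL]

end Pool.Agent.Q282.SnM
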